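import Mathlib

namespace Pool.Agent.Results.MP_4caafd_al.Rees

open Topology

/-- classes of spaces with a multiplication -/
abbrev Cls := ∀ (Y : Type) [Semigroup Y] [TopologicalSpace Y], Prop

/-- every copy of the discrete semigroup `X` in a topological semigroup of the class is closed -/
def CClosed (C : Cls) (X : Type) [Semigroup X] : Prop :=
  ∀ (Y : Type) [Semigroup Y] [TopologicalSpace Y] [ContinuousMul Y], C Y →
    ∀ h : X →ₙ* Y, @IsEmbedding X Y ⊥ _ h → IsClosed (Set.range h)

def IdeallyClosed (C : Cls) (X : Type) [Semigroup X] : Prop :=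
  ∀ (I : Set X), (∀ a ∈ I, ∀ x, a * x ∈ I ∧ x * a ∈ I) →
    ∀ c : Con X, (∀ x y, c x y ↔ (x ∈ I ∧ y ∈ I) ∨ x = y) → CClosed C c.Quotient

abbrev G := ℕ → ZMod 2

@[ext] structure X where
  i : G
  g : G
  l : Bool

def p (l : Bool) (j : G) : G := if l then j else 0

instance : Semigroup X where
  mul x y := ⟨x.i, x.g + p x.l y.i + y.g, y.l⟩
  mul_assoc a b c := by
    change X.mk _ _ _ = X.mk _ _ _
    congr 1
    change a.g + p a.l b.i + b.g + p b.l c.i + c.g = a.g + p a.l b.i + (b.g + p b.l c.i + c.g)
    abel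

lemma mul_def (x y : X) : x * y = ⟨x.i, x.g + p x.l y.i + y.g, y.l⟩ := rfl

lemma add_self (g : G) : g + g = 0 := by
  funext n
  exact CharTwo.add_self_eq_zero _

lemma closedX (Y : Type) [Semigroup Y] [TopologicalSpace Y] [ContinuousMul Y] [T1Space Y]
    (h : X →ₙ* Y) (hh : @IsEmbedding X Y ⊥ _ h) : IsClosed (Set.range h) := by
  let : TopologicalSpace X := ⊥
  have : DiscreteTopology X := ⟨rfl⟩
  rw [← closure_subset_iff_isClosed]
  intro y hy
  let e : X := ⟨0, 0, false⟩
  obtain ⟨U, hU, hUe⟩ := hh.isInducing.isOpen_iff.1 (isOpen_discrete {e})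
  have key : ∀ l : Bool, ∃ V ∈ 𝓝 y, ∀ x x' : X, h x ∈ V → h x' ∈ V →
      p l x.i + x.g = p l x'.i + x'.g := by
    intro l
    let a : X := ⟨0, 0, l⟩
    let F : Y × Y → Y := fun q => h a * q.1 * h e * (h a * q.2 * h e)
    have hF : Continuous F := by fun_prop
    have hv : ∀ x x' : X, F (h x, h x') =
        h ⟨0, p l x.i + x.g + (p l x'.i + x'.g), false⟩ := by
      intro x x'
      simp only [F, ← map_mul]
      congr 1
      simp [mul_def, a, e, p]
    have h1 : F (y, y) = h e := by
      have hc : IsClosed {z : Y | F (z, z) = h e} :=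
        (isClosed_singleton (x := h e)).preimage (f := fun z => F (z, z)) (by fun_prop)
      refine hc.closure_subset_iff.2 ?_ hy
      rintro _ ⟨x, rfl⟩
      change F _ = _
      rw [hv, add_self]
    have h2 : F ⁻¹' U ∈ 𝓝 (y, y) := by
      refine hF.continuousAt.preimage_mem_nhds (hU.mem_nhds ?_)
      rw [h1]
      have : e ∈ h ⁻¹' U := by rw [hUe]; rfl
      exact this
    obtain ⟨V, hV, W, hW, hVW⟩ := mem_nhds_prod_iff.1 h2
    refine ⟨V ∩ W, Filter.inter_mem hV hW, fun x x' hx hx' => ?_⟩
    have h3 : F (h x, h x') ∈ U := hVW (Set.mk_mem_prod hx.1 hx'.2)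
    rw [hv] at h3
    have h4 : (⟨0, p l x.i + x.g + (p l x'.i + x'.g), false⟩ : X) ∈ h ⁻¹' U := h3
    rw [hUe] at h4
    have h5 : p l x.i + x.g + (p l x'.i + x'.g) = 0 := congrArg X.g h4
    rw [← add_self (p l x'.i + x'.g)] at h5
    exact add_right_cancel h5
  obtain ⟨V, hV, h1⟩ := key false
  obtain ⟨W, hW, h2⟩ := key true
  have hVW := Filter.inter_mem hV hW
  obtain ⟨_, hx0, x0, rfl⟩ := mem_closure_iff_nhds.1 hy _ hVW
  have hfin : (h '' {⟨x0.i, x0.g, false⟩, ⟨x0.i, x0.g, true⟩}).Finite :=
    (Set.toFinite _).image _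
  have : y ∈ closure (h '' {⟨x0.i, x0.g, false⟩, ⟨x0.i, x0.g, true⟩}) := by
    rw [mem_closure_iff_nhds]
    intro T hT
    obtain ⟨_, hx, x, rfl⟩ := mem_closure_iff_nhds.1 hy _ (Filter.inter_mem hT hVW)
    refine ⟨h x, hx.1, x, ?_, rfl⟩
    have e1 := h1 x x0 hx.2.1 hx0.1
    have e2 := h2 x x0 hx.2.2 hx0.2
    simp only [p, Bool.false_eq_true, if_false, zero_add, if_true] at e1 e2
    rw [e1] at e2
    obtain ⟨i, g, l⟩ := x
    simp only at e1 e2
    rw [e1, add_right_cancel e2]
    cases l <;> simp
  rw [hfin.isClosed.closure_eq] at this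
  exact Set.image_subset_range _ _ this

def c0 : Con X where
  r x y := x.i = y.i
  iseqv := ⟨fun _ => rfl, Eq.symm, Eq.trans⟩
  mul' h _ := h

def LZ (Y : Type) : Type := Y

instance (Y : Type) : Semigroup (LZ Y) where
  mul x _ := x
  mul_assoc _ _ _ := rfl

instance (Y : Type) [t : TopologicalSpace Y] : TopologicalSpace (LZ Y) := t

instance (Y : Type) [TopologicalSpace Y] : ContinuousMul (LZ Y) := ⟨continuous_fst⟩

theorem result : ∃ (X : Type) (_ : Semigroup X), ∀ C : Cls,
    (∀ (Y : Type) [Semigroup Y] [TopologicalSpace Y] [ContinuousMul Y] [T2Space Y],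
      TopologicalSpace.IsTopologicalBasis {s : Set Y | IsClopen s} → C Y) →
    (∀ (Y : Type) [Semigroup Y] [TopologicalSpace Y], C Y → T1Space Y) →
    IdeallyClosed C X ∧ ∃ c : Con X, ¬ CClosed C c.Quotient := by
  refine ⟨X, inferInstance, fun C hz h1 => ⟨?_, c0, ?_⟩⟩
  · intro I hI c hc Y _ _ _ hY h hh
    have := h1 Y hY
    rcases I.eq_empty_or_nonempty with rfl | ⟨a, ha⟩
    · have hinj : Function.Injective (c.mkMulHom) := fun x y hxy => by
        simpa using (hc x y).1 (c.eq.1 hxy)
      have hsurj : Function.Surjective (c.mkMulHom) := Quotient.mk''_surjective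
      have h2 := closedX Y (h.comp c.mkMulHom) (by
        let : TopologicalSpace X := ⊥
        let : TopologicalSpace c.Quotient := ⊥
        have : DiscreteTopology X := ⟨rfl⟩
        have : DiscreteTopology c.Quotient := ⟨rfl⟩
        refine hh.comp (f := c.mkMulHom) ?_
        exact (IsOpenEmbedding.of_continuous_injective_isOpenMap continuous_of_discreteTopology
          hinj fun U _ => isOpen_discrete _).isEmbedding)
      rwa [MulHom.coe_comp, hsurj.range_comp] at h2
    · have hall : ∀ x, x ∈ I := by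
        intro x
        have : x = (⟨x.i, x.g - a.g, false⟩ : X) * a * ⟨0, 0, x.l⟩ := by
          ext1 <;> simp [mul_def, p]
        rw [this]
        exact (hI _ (hI a ha _).2 _).1
      have : Subsingleton c.Quotient := ⟨fun x y => by
        induction x using Con.induction_on
        induction y using Con.induction_on
        exact c.eq.2 ((hc _ _).2 (Or.inl ⟨hall _, hall _⟩))⟩
      exact (Set.finite_range h).isClosed
  · intro hc
    let : TopologicalSpace c0.Quotient := ⊥
    have : DiscreteTopology c0.Quotient := ⟨rfl⟩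
    have : Infinite c0.Quotient := Infinite.of_injective
      (fun i : G => ((⟨i, 0, false⟩ : X) : c0.Quotient)) fun i j hij => c0.eq.1 hij
    have : NoncompactSpace c0.Quotient :=
      not_compactSpace_iff.1 fun _ => by
        have := finite_of_compact_of_discrete (X := c0.Quotient)
        exact not_finite c0.Quotient
    let h : c0.Quotient →ₙ* LZ (OnePoint c0.Quotient) :=
      { toFun := fun q => (q : OnePoint c0.Quotient)
        map_mul' := fun x y => by
          induction x using Con.induction_on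
          induction y using Con.induction_on
          exact congrArg OnePoint.some (c0.eq.2 rfl) }
    have : T2Space (LZ (OnePoint c0.Quotient)) := inferInstanceAs (T2Space (OnePoint c0.Quotient))
    have h2 := hc (LZ (OnePoint c0.Quotient))
      (hz _ (isTopologicalBasis_isClopen (X := OnePoint c0.Quotient))) h
      OnePoint.isOpenEmbedding_coe.isEmbedding
    have h3 : IsClosed (Set.range ((↑) : c0.Quotient → OnePoint c0.Quotient)) := h2
    have h4 := OnePoint.denseRange_coe (X := c0.Quotient) OnePoint.infty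
    rw [h3.closure_eq] at h4
    exact OnePoint.infty_notMem_range_coe h4

end Pool.Agent.Results.MP_4caafd_al.Rees
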